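import Mathlib
import Pool.Agent.L5helper13.IV.Three2

set_option autoImplicit false

namespace Pool.Agent.Results.MP_c3e981_ag.QuadraticInvolutions

open MvPolynomial

/-- Let `F` be an automorphism of `ℂ[x_1, ..., x_n]` with `F ∘ F = id`. It is conjugate to a linear
automorphism if (a) all `F x_i` have degree at most two, or (b) `F x_i = L_i + H_i` with `L_i`
homogeneous of degree one and all `H_i` homogeneous of the same degree `d`, or (c) `F x_i = L_i + H_i`
with `L_i` of degree at most one, where `x_i ↦ L_i` and, for one `τ ≠ 0, 1`, also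
`x_i ↦ L_i + τ H_i` are involutions. -/
theorem result (n : ℕ) (F : MvPolynomial (Fin n) ℂ ≃ₐ[ℂ] MvPolynomial (Fin n) ℂ)
    (hF : ∀ p : MvPolynomial (Fin n) ℂ, F (F p) = p)
    (h : (∀ i, (F (X i)).totalDegree ≤ 2) ∨
      (∃ (d : ℕ) (L H : Fin n → MvPolynomial (Fin n) ℂ),
        ∀ i, (L i).IsHomogeneous 1 ∧ (H i).IsHomogeneous d ∧ F (X i) = L i + H i) ∨
      (∃ (L H : Fin n → MvPolynomial (Fin n) ℂ) (τ : ℂ), τ ≠ 0 ∧ τ ≠ 1 ∧
        ∀ i, (L i).totalDegree ≤ 1 ∧ F (X i) = L i + H i ∧ aeval L (L i) = X i ∧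
          aeval (fun j => L j + C τ * H j) (L i + C τ * H i) = X i)) :
    ∃ G : MvPolynomial (Fin n) ℂ ≃ₐ[ℂ] MvPolynomial (Fin n) ℂ,
      ∀ i : Fin n, (G.symm (F (G (X i)))).IsHomogeneous 1 := by
  rcases h with h | h | ⟨L, H, τ, h0, h1, h2⟩
  · exact Pool.Agent.L5helper13.IV.main F hF (Or.inl h)
  · exact Pool.Agent.L5helper13.IV.main F hF (Or.inr h)
  · exact Pool.Agent.L5helper13.IV.three F hF L H τ h0 h1 (fun i => (h2 i).1)
      (fun i => (h2 i).2.1) (fun i => (h2 i).2.2.1) (fun i => (h2 i).2.2.2)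

end Pool.Agent.Results.MP_c3e981_ag.QuadraticInvolutions
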